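import Pool.Agent.helper27.SY.Spec

/-!
Module TAU of project sy (MP_5628fe_nt): the number of subsets of a finite set of primes is bounded by a small power of
the product.
-/

set_option autoImplicit false

open Finset ArithmeticFunction

namespace Pool.Agent.SY

open Pool.Agent.SX Pool.Agent.helper85.BVP

theorem TAU : TAU_stmt := by
  classical
  intro ε hε
  set N : ℕ := ⌈(2 : ℝ) ^ (1 / ε)⌉₊ with hN
  refine ⟨(2 : ℝ) ^ N, one_le_pow₀ (by norm_num), ?_⟩
  intro F hF
  have h1 : ∀ p ∈ F, (1 : ℝ) ≤ p := fun p hp => by exact_mod_cast (hF p hp).one_lt.le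
  have h2 : ∀ p ∈ F, (2 : ℝ) ≤ (if p < N then 2 else 1) * (p : ℝ) ^ ε := by
    intro p hp
    have hp1 := h1 p hp
    by_cases hpN : p < N
    · rw [if_pos hpN]
      have : (1 : ℝ) ≤ (p : ℝ) ^ ε := Real.one_le_rpow hp1 hε.le
      linarith
    · rw [if_neg hpN, one_mul]
      have h3 : (2 : ℝ) ^ (1 / ε) ≤ p := (Nat.le_ceil _).trans (by exact_mod_cast not_lt.1 hpN)
      calc (2 : ℝ) = ((2 : ℝ) ^ (1 / ε)) ^ ε := by
            rw [← Real.rpow_mul (by norm_num), one_div, inv_mul_cancel₀ hε.ne', Real.rpow_one]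
        _ ≤ (p : ℝ) ^ ε := Real.rpow_le_rpow (by positivity) h3 hε.le
  have h4 : ∏ p ∈ F, (if p < N then (2 : ℝ) else 1) ≤ 2 ^ N := by
    rw [Finset.prod_ite, Finset.prod_const, Finset.prod_const_one, mul_one]
    apply pow_le_pow_right₀ (by norm_num)
    calc (F.filter (fun p => p < N)).card ≤ (Finset.range N).card :=
          Finset.card_le_card fun p hp => Finset.mem_range.2 (Finset.mem_filter.1 hp).2
      _ = N := Finset.card_range N
  calc (2 : ℝ) ^ F.card = ∏ p ∈ F, (2 : ℝ) := by rw [Finset.prod_const]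
    _ ≤ ∏ p ∈ F, ((if p < N then (2 : ℝ) else 1) * (p : ℝ) ^ ε) :=
        Finset.prod_le_prod (fun _ _ => by norm_num) h2
    _ = (∏ p ∈ F, (if p < N then (2 : ℝ) else 1)) * (∏ p ∈ F, (p : ℝ)) ^ ε := by
        rw [Finset.prod_mul_distrib, Real.finsetProd_rpow _ _ (fun p hp => by linarith [h1 p hp])]
    _ ≤ 2 ^ N * (∏ p ∈ F, (p : ℝ)) ^ ε := by
        apply mul_le_mul_of_nonneg_right h4
        exact Real.rpow_nonneg (Finset.prod_nonneg fun p hp => by linarith [h1 p hp]) _

end Pool.Agent.SY
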